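import Pool.Agent.Q78.LEO.FinB

namespace Q78.LEO

open Set Q78.BetaT Polynomial

section

variable {α β a b : ℝ}

/-- the inverse branch -/
noncomputable def gg (α β y : ℝ) : ℝ := if y < α + β - 1 then (y + 1 - α) / β else (y - α) / β

theorem gg_mem (hp : Par α β) {y : ℝ} (hy : y ∈ Ioo (0 : ℝ) 1) : gg α β y ∈ Ioo (0 : ℝ) 1 := by
  have hβ := hp.hβ
  have hβ0 : 0 < β := by linarith
  have hα := hp.hα
  unfold gg
  split_ifs with h
  · constructor
    · apply div_pos _ hβ0; linarith [hy.1, hp.hs]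
    · rw [div_lt_one hβ0]; linarith
  · constructor
    · apply div_pos _ hβ0; linarith [not_lt.1 h]
    · rw [div_lt_one hβ0]; linarith [hy.2]

theorem F_gg (hp : Par α β) {y : ℝ} (hy : y ∈ Ioo (0 : ℝ) 1) : F α β (gg α β y) = y := by
  have hβ := hp.hβ
  have hβ0 : 0 < β := by linarith
  have hα := hp.hα
  unfold gg
  split_ifs with h
  · rw [F_ge]
    · unfold FR; field_simp; ring
    · unfold cc
      apply div_le_div_of_nonneg_right _ hβ0.le
      linarith [hy.1]
  · rw [F_lt]
    · unfold FL; field_simp; ring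
    · unfold cc
      apply div_lt_div_of_pos_right _ hβ0
      linarith [hy.2]

theorem Good.bd_back (h : Good α β a b) {x y : ℝ} (hy : y ∈ Bd α β a b) (hx : x ∈ Ioo (0 : ℝ) 1)
    (hxy : F α β x = y) : x ∈ Bd α β a b := by
  refine ⟨hx, fun hW => ?_⟩
  have hxc : x ≠ cc α β := by
    rintro rfl
    rw [F_c h.par] at hxy
    linarith [hy.1.1]
  exact hy.2 (hxy ▸ h.om_map hW hxc)

theorem Good.gg_bd (h : Good α β a b) {y : ℝ} (hy : y ∈ Bd α β a b) : gg α β y ∈ Bd α β a b :=
  h.bd_back hy (gg_mem h.par hy.1) (F_gg h.par hy.1)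

/-- the inverse branch as a permutation of the boundary set -/
theorem Good.gg_surj (h : Good α β a b) {x : ℝ} (hx : x ∈ Bd α β a b) :
    ∃ y ∈ Bd α β a b, gg α β y = x := by
  have hfin := h.bd_finite
  have : Finite (Bd α β a b) := hfin
  set f : Bd α β a b → Bd α β a b := fun y => ⟨gg α β y.1, h.gg_bd y.2⟩ with hf
  have hinj : Function.Injective f := by
    intro y y' hyy
    have h1 : gg α β y.1 = gg α β y'.1 := congrArg Subtype.val hyy
    apply Subtype.ext
    rw [← F_gg h.par y.2.1, ← F_gg h.par y'.2.1, h1]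
  obtain ⟨y, hy⟩ := Finite.injective_iff_surjective.1 hinj ⟨x, hx⟩
  exact ⟨y.1, y.2, congrArg Subtype.val hy⟩

theorem Good.F_bd (h : Good α β a b) {x : ℝ} (hx : x ∈ Bd α β a b) : F α β x ∈ Bd α β a b := by
  obtain ⟨y, hy, rfl⟩ := h.gg_surj hx
  rwa [F_gg h.par hy.1]

theorem Good.gg_F (h : Good α β a b) {x : ℝ} (hx : x ∈ Bd α β a b) :
    gg α β (F α β x) = x := by
  obtain ⟨y, hy, rfl⟩ := h.gg_surj hx
  rw [F_gg h.par hy.1]

theorem Good.not_mid (h : Good α β a b) {y : ℝ} (hy : y ∈ Bd α β a b) : y ≤ α ∨ α + β - 1 ≤ y := by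
  have hp := h.par
  have hβ := hp.hβ
  have hβ0 : 0 < β := by linarith
  by_contra hcon
  push Not at hcon
  obtain ⟨h1, h2⟩ := hcon
  have hx2 : (y - α) / β ∈ Ioo (0 : ℝ) 1 :=
    ⟨div_pos (by linarith) hβ0, by rw [div_lt_one hβ0]; linarith⟩
  have hF2 : F α β ((y - α) / β) = y := by
    rw [F_lt]
    · unfold FL; field_simp; ring
    · unfold cc
      apply div_lt_div_of_pos_right _ hβ0
      linarith [hy.1.2]
  have h3 := h.bd_back hy hx2 hF2
  have h4 := h.gg_F h3
  rw [hF2] at h4
  unfold gg at h4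
  rw [if_pos h2] at h4
  have h5 : (y + 1 - α) / β = (y - α) / β + 1 / β := by ring
  have h6 : 0 < 1 / β := by positivity
  linarith

/-- a finite set not containing a point is away from it -/
theorem away {S : Set ℝ} (hS : S.Finite) {c : ℝ} (hc : c ∉ S) : ∃ η > 0, ∀ y ∈ S, η ≤ |y - c| := by
  rcases S.eq_empty_or_nonempty with h | h
  · subst h
    exact ⟨1, one_pos, fun y hy => hy.elim⟩
  · obtain ⟨y₀, hy₀, hmin⟩ := exists_min_image S (fun y => |y - c|) hS h
    refine ⟨|y₀ - c|, ?_, fun y hy => hmin y hy⟩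
    apply abs_pos.2
    intro h0
    have : y₀ = c := by linarith
    exact hc (this ▸ hy₀)

theorem c_notMem_bd (h : Good α β a b) : cc α β ∉ Bd α β a b := fun hc => hc.2 h.om_c

theorem Good.alpha_mem (h : Good α β a b) (hne : (Bd α β a b).Nonempty) : α ∈ Bd α β a b := by
  have hp := h.par
  have hβ := hp.hβ
  have hβ0 : 0 < β := by linarith
  by_contra hα
  obtain ⟨y₀, hy₀⟩ := hne
  obtain ⟨η₁, hη₁, h1⟩ := away h.bd_finite (c_notMem_bd h)
  obtain ⟨η₂, hη₂, h2⟩ := away h.bd_finite hα
  set ε := min (η₁ / 2) η₂ with hε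
  have hε0 : 0 < ε := lt_min (by positivity) hη₂
  have hε1 : ε ≤ η₁ / 2 := min_le_left _ _
  have hε2 : ε ≤ η₂ := min_le_right _ _
  -- backward invariance
  have hback : ∀ x ∈ Ico (0 : ℝ) 1, (∃ y ∈ Bd α β a b, F α β x ∈ Ioo y (y + ε)) →
      ∃ y ∈ Bd α β a b, x ∈ Ioo y (y + ε) := by
    rintro x hx ⟨y, hy, hxy⟩
    refine ⟨gg α β y, h.gg_bd hy, ?_⟩
    rcases h.not_mid hy with h3 | h3
    · have h4 : y < α := lt_of_le_of_ne h3 (fun he => hα (he ▸ hy))
      have h5 := h2 y hy
      rw [abs_of_neg (by linarith)] at h5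
      have h6 : F α β x < α := by linarith [hxy.2]
      have h7 : cc α β ≤ x := by
        by_contra h8
        rw [F_lt (not_le.1 h8)] at h6
        unfold FL at h6
        nlinarith [hx.1]
      rw [F_ge h7] at hxy
      unfold gg
      rw [if_pos (by linarith)]
      unfold FR at hxy
      constructor
      · rw [div_lt_iff₀ hβ0]; linarith [hxy.1]
      · have h9 : x - ε < (y + 1 - α) / β := by
          rw [lt_div_iff₀ hβ0]
          nlinarith [hxy.2]
        linarith
    · have h6 : α + β - 1 < F α β x := by linarith [hxy.1]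
      have h7 : x < cc α β := by
        by_contra h8
        rw [F_ge (not_lt.1 h8)] at h6
        unfold FR at h6
        nlinarith [hx.2]
      rw [F_lt h7] at hxy
      unfold gg
      rw [if_neg (by linarith)]
      unfold FL at hxy
      constructor
      · rw [div_lt_iff₀ hβ0]; linarith [hxy.1]
      · have h9 : x - ε < (y - α) / β := by
          rw [lt_div_iff₀ hβ0]
          nlinarith [hxy.2]
        linarith
  have hback' : ∀ n : ℕ, ∀ x ∈ Ico (0 : ℝ) 1,
      (∃ y ∈ Bd α β a b, (F α β)^[n] x ∈ Ioo y (y + ε)) → ∃ y ∈ Bd α β a b, x ∈ Ioo y (y + ε) := by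
    intro n
    induction n with
    | zero => intro x _ hx; exact hx
    | succ n ih =>
      intro x hx hxn
      rw [Function.iterate_succ_apply'] at hxn
      exact ih x hx (hback _ (iter_mem hp n hx) hxn)
  have hcpos := hp.c_pos
  have hclt := hp.c_lt
  have hmin1 : y₀ < min (y₀ + ε) 1 := lt_min (by linarith) hy₀.1.2
  set r := min (η₁ / 2) (min (cc α β) (1 - cc α β)) with hr
  have hr0 : 0 < r := lt_min (by positivity) (lt_min hcpos (by linarith))
  have hr1 : r ≤ η₁ / 2 := min_le_left _ _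
  have hr2 : r ≤ cc α β := (min_le_right _ _).trans (min_le_left _ _)
  have hr3 : r ≤ 1 - cc α β := (min_le_right _ _).trans (min_le_right _ _)
  obtain ⟨n, x, hx, hxn⟩ := h.tr (cc α β - r) (cc α β + r) y₀ (min (y₀ + ε) 1) (by linarith)
    (by linarith) (by linarith) hy₀.1.1.le hmin1 (min_le_right _ _)
  obtain ⟨y, hy, hxy⟩ := hback' n x ⟨by linarith [hx.1], by linarith [hx.2]⟩
    ⟨y₀, hy₀, hxn.1, lt_of_lt_of_le hxn.2 (min_le_left _ _)⟩
  have h10 := h1 y hy
  have h11 : |y - cc α β| < η₁ := by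
    rw [abs_lt]
    constructor
    · linarith [hx.1, hxy.2]
    · linarith [hx.2, hxy.1]
  linarith

theorem Good.top_mem (h : Good α β a b) (hne : (Bd α β a b).Nonempty) :
    α + β - 1 ∈ Bd α β a b := by
  have hp := h.par
  have hβ := hp.hβ
  have hβ0 : 0 < β := by linarith
  by_contra hα
  obtain ⟨y₀, hy₀⟩ := hne
  obtain ⟨η₁, hη₁, h1⟩ := away h.bd_finite (c_notMem_bd h)
  obtain ⟨η₂, hη₂, h2⟩ := away h.bd_finite hα
  set ε := min (η₁ / 2) η₂ with hε
  have hε0 : 0 < ε := lt_min (by positivity) hη₂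
  have hε1 : ε ≤ η₁ / 2 := min_le_left _ _
  have hε2 : ε ≤ η₂ := min_le_right _ _
  -- backward invariance
  have hback : ∀ x ∈ Ico (0 : ℝ) 1, (∃ y ∈ Bd α β a b, F α β x ∈ Ioo (y - ε) y) →
      ∃ y ∈ Bd α β a b, x ∈ Ioo (y - ε) y := by
    rintro x hx ⟨y, hy, hxy⟩
    refine ⟨gg α β y, h.gg_bd hy, ?_⟩
    rcases h.not_mid hy with h3 | h3
    · have h6 : F α β x < α := by linarith [hxy.2]
      have h7 : cc α β ≤ x := by
        by_contra h8
        rw [F_lt (not_le.1 h8)] at h6
        unfold FL at h6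
        nlinarith [hx.1]
      rw [F_ge h7] at hxy
      unfold gg
      rw [if_pos (by linarith)]
      unfold FR at hxy
      constructor
      · have h9 : (y + 1 - α) / β < x + ε := by
          rw [div_lt_iff₀ hβ0]
          nlinarith [hxy.1]
        linarith
      · rw [lt_div_iff₀ hβ0]; linarith [hxy.2]
    · have h4 : α + β - 1 < y := lt_of_le_of_ne h3 (fun he => hα (he ▸ hy))
      have h5 := h2 y hy
      rw [abs_of_pos (by linarith)] at h5
      have h6 : α + β - 1 < F α β x := by linarith [hxy.1]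
      have h7 : x < cc α β := by
        by_contra h8
        rw [F_ge (not_lt.1 h8)] at h6
        unfold FR at h6
        nlinarith [hx.2]
      rw [F_lt h7] at hxy
      unfold gg
      rw [if_neg (by linarith)]
      unfold FL at hxy
      constructor
      · have h9 : (y - α) / β < x + ε := by
          rw [div_lt_iff₀ hβ0]
          nlinarith [hxy.1]
        linarith
      · rw [lt_div_iff₀ hβ0]; linarith [hxy.2]
  have hback' : ∀ n : ℕ, ∀ x ∈ Ico (0 : ℝ) 1,
      (∃ y ∈ Bd α β a b, (F α β)^[n] x ∈ Ioo (y - ε) y) → ∃ y ∈ Bd α β a b, x ∈ Ioo (y - ε) y := by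
    intro n
    induction n with
    | zero => intro x _ hx; exact hx
    | succ n ih =>
      intro x hx hxn
      rw [Function.iterate_succ_apply'] at hxn
      exact ih x hx (hback _ (iter_mem hp n hx) hxn)
  have hcpos := hp.c_pos
  have hclt := hp.c_lt
  have hmin1 : max (y₀ - ε) 0 < y₀ := max_lt (by linarith) hy₀.1.1
  set r := min (η₁ / 2) (min (cc α β) (1 - cc α β)) with hr
  have hr0 : 0 < r := lt_min (by positivity) (lt_min hcpos (by linarith))
  have hr1 : r ≤ η₁ / 2 := min_le_left _ _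
  have hr2 : r ≤ cc α β := (min_le_right _ _).trans (min_le_left _ _)
  have hr3 : r ≤ 1 - cc α β := (min_le_right _ _).trans (min_le_right _ _)
  obtain ⟨n, x, hx, hxn⟩ := h.tr (cc α β - r) (cc α β + r) (max (y₀ - ε) 0) y₀ (by linarith)
    (by linarith) (by linarith) (le_max_right _ _) hmin1 hy₀.1.2.le
  obtain ⟨y, hy, hxy⟩ := hback' n x ⟨by linarith [hx.1], by linarith [hx.2]⟩
    ⟨y₀, hy₀, lt_of_le_of_lt (le_max_left _ _) hxn.1, hxn.2⟩
  have h10 := h1 y hy
  have h11 : |y - cc α β| < η₁ := by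
    rw [abs_lt]
    constructor
    · linarith [hx.1, hxy.2]
    · linarith [hx.2, hxy.1]
  linarith

/-- all points of the boundary set have a common period -/
theorem Good.exists_period (h : Good α β a b) :
    ∃ p : ℕ, 0 < p ∧ ∀ x ∈ Bd α β a b, (F α β)^[p] x = x := by
  have hfin := h.bd_finite
  have : Finite (Bd α β a b) := hfin
  set f : Bd α β a b → Bd α β a b := fun y => ⟨F α β y.1, h.F_bd y.2⟩ with hf
  have hinj : Function.Injective f := by
    intro y y' hyy
    have h1 : F α β y.1 = F α β y'.1 := congrArg Subtype.val hyy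
    apply Subtype.ext
    rw [← h.gg_F y.2, ← h.gg_F y'.2, h1]
  set e : Equiv.Perm (Bd α β a b) :=
    Equiv.ofBijective f ⟨hinj, Finite.injective_iff_surjective.1 hinj⟩ with he
  have hpos : 0 < orderOf e := orderOf_pos e
  have hit : ∀ n : ℕ, ∀ x : Bd α β a b, (((e ^ n) x : Bd α β a b) : ℝ) = (F α β)^[n] x.1 := by
    intro n x
    induction n with
    | zero => rfl
    | succ n ih =>
      rw [pow_succ', Equiv.Perm.mul_apply, Function.iterate_succ_apply', ← ih]
      rfl
  refine ⟨orderOf e, hpos, fun x hx => ?_⟩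
  have h1 := hit (orderOf e) ⟨x, hx⟩
  rw [pow_orderOf_eq_one] at h1
  exact h1.symm

/-- formula for the iterates -/
theorem iter_formula (n : ℕ) (x : ℝ) : ∃ P : ℚ[X], (∀ k, n ≤ k → P.coeff k = 0) ∧
    (F α β)^[n] x = β ^ n * x + α * ∑ j ∈ Finset.range n, β ^ j - aeval β P := by
  induction n with
  | zero => exact ⟨0, fun k _ => by simp, by simp⟩
  | succ n ih =>
    obtain ⟨P, hP, hF⟩ := ih
    have hsum : ∑ j ∈ Finset.range (n + 1), β ^ j = 1 + β * ∑ j ∈ Finset.range n, β ^ j := by
      rw [Finset.sum_range_succ', Finset.mul_sum]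
      simp only [pow_zero, pow_succ]
      rw [add_comm]
      congr 1
      apply Finset.sum_congr rfl
      intro j _
      ring
    rcases lt_or_ge ((F α β)^[n] x) (cc α β) with h1 | h1
    · refine ⟨P * X, fun k hk => ?_, ?_⟩
      · obtain ⟨k, rfl⟩ : ∃ m, k = m + 1 := ⟨k - 1, by omega⟩
        rw [coeff_mul_X]
        exact hP k (by omega)
      · rw [Function.iterate_succ_apply', F_lt h1, hF, hsum]
        unfold FL
        simp only [map_mul, aeval_X]
        ring
    · refine ⟨P * X + C 1, fun k hk => ?_, ?_⟩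
      · obtain ⟨k, rfl⟩ : ∃ m, k = m + 1 := ⟨k - 1, by omega⟩
        rw [coeff_add, coeff_mul_X, hP k (by omega), coeff_C, if_neg (by omega), add_zero]
      · rw [Function.iterate_succ_apply', F_ge h1, hF, hsum]
        unfold FR
        simp only [map_add, map_mul, aeval_X, map_one]
        ring

theorem Good.algebraic (h : Good α β a b) (hne : (Bd α β a b).Nonempty) :
    IsAlgebraic ℚ α ∧ IsAlgebraic ℚ β := by
  have hp := h.par
  have hβ := hp.hβ
  have hβ0 : 0 < β := by linarith
  obtain ⟨p, hp0, hper⟩ := h.exists_period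
  have h1 := hper _ (h.alpha_mem hne)
  have h2 := hper _ (h.top_mem hne)
  obtain ⟨P, hP, hF⟩ := iter_formula (α := α) (β := β) p α
  obtain ⟨Q, hQ, hG⟩ := iter_formula (α := α) (β := β) p (α + β - 1)
  rw [h1] at hF
  rw [h2] at hG
  have hβalg : IsAlgebraic ℚ β := by
    refine ⟨X ^ (p + 1) - X ^ p - X + 1 - (Q - P), ?_, ?_⟩
    · intro h0
      have h3 := congrArg (fun R : ℚ[X] => R.coeff (p + 1)) h0
      simp only [coeff_sub, coeff_add, coeff_X_pow, coeff_X, coeff_one, coeff_zero] at h3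
      rw [hP (p + 1) (by omega), hQ (p + 1) (by omega), if_pos trivial, if_neg (by omega),
        if_neg (by omega), if_neg (by omega)] at h3
      norm_num at h3
    · simp only [map_sub, map_add, map_pow, aeval_X, map_one]
      linear_combination hF - hG
  refine ⟨?_, hβalg⟩
  set S := ∑ j ∈ Finset.range p, β ^ j with hS
  have hS1 : 1 ≤ S := by
    obtain ⟨q, rfl⟩ : ∃ q, p = q + 1 := ⟨p - 1, by omega⟩
    rw [hS, Finset.sum_range_succ']
    have : 0 ≤ ∑ k ∈ Finset.range q, β ^ (k + 1) :=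
      Finset.sum_nonneg (fun i _ => by positivity)
    simp only [pow_zero]
    linarith
  have hpow : 0 < β ^ p := by positivity
  have hD : 0 < β ^ p + S - 1 := by linarith
  have hα : α = aeval β P / (β ^ p + S - 1) := by
    rw [eq_div_iff hD.ne']
    linarith
  rw [← mem_algebraicClosure_iff] at hβalg ⊢
  rw [hα]
  have hPm : aeval β P ∈ algebraicClosure ℚ ℝ := by
    have h3 := IntermediateField.aeval_coe (algebraicClosure ℚ ℝ)
      (⟨β, hβalg⟩ : algebraicClosure ℚ ℝ) P
    have h4 : aeval β P = ((aeval (⟨β, hβalg⟩ : algebraicClosure ℚ ℝ) P :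
      algebraicClosure ℚ ℝ) : ℝ) := h3
    rw [h4]
    exact Subtype.property _
  have hSm : S ∈ algebraicClosure ℚ ℝ := sum_mem (fun j _ => pow_mem hβalg j)
  exact div_mem hPm (sub_mem (add_mem (pow_mem hβalg p) hSm) (one_mem _))

end

end Q78.LEO
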