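import Pool.Agent.Q78.LEO.Defs
import Pool.Agent.Q78.BetaT.Main

namespace Q78.LEO

open Set Q78.BetaT

/-- the map as a map of `ℝ` -/
noncomputable def F (α β x : ℝ) : ℝ := if x < cc α β then FL α β x else FR α β x

section

variable {α β : ℝ}

theorem F_lt {x : ℝ} (h : x < cc α β) : F α β x = FL α β x := if_pos h

theorem F_ge {x : ℝ} (h : cc α β ≤ x) : F α β x = FR α β x := if_neg (not_lt.2 h)

theorem bc (hp : Par α β) : β * cc α β = 1 - α := by
  have := hp.hβ
  unfold cc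
  field_simp

theorem F_c (hp : Par α β) : F α β (cc α β) = 0 := by
  rw [F_ge le_rfl, hp.FR_c]

theorem F_mem (hp : Par α β) {x : ℝ} (hx : x ∈ Ico (0 : ℝ) 1) : F α β x ∈ Ico (0 : ℝ) 1 := by
  have hβ := hp.hβ
  have hα := hp.hα
  have hs := hp.hs
  have hb := bc hp
  have h0 := hx.1
  have h1 := hx.2
  rcases lt_or_ge x (cc α β) with h | h
  · rw [F_lt h]
    unfold FL
    constructor <;> nlinarith
  · rw [F_ge h]
    unfold FR
    constructor <;> nlinarith

theorem iter_mem (hp : Par α β) (n : ℕ) {x : ℝ} (hx : x ∈ Ico (0 : ℝ) 1) :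
    (F α β)^[n] x ∈ Ico (0 : ℝ) 1 := by
  induction n with
  | zero => exact hx
  | succ n ih =>
    rw [Function.iterate_succ_apply']
    exact F_mem hp ih

theorem img_sub (hp : Par α β) (n : ℕ) {S : Set ℝ} (hS : S ⊆ Ico (0 : ℝ) 1) :
    (F α β)^[n] '' S ⊆ Ico (0 : ℝ) 1 := by
  rintro _ ⟨x, hx, rfl⟩
  exact iter_mem hp n (hS hx)

theorem iter_succ_image (n : ℕ) (S : Set ℝ) :
    (F α β)^[n + 1] '' S = F α β '' ((F α β)^[n] '' S) := by
  rw [Function.iterate_succ', image_comp]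

theorem iter_add_image (n m : ℕ) (S : Set ℝ) :
    (F α β)^[n + m] '' S = (F α β)^[n] '' ((F α β)^[m] '' S) := by
  rw [Function.iterate_add, image_comp]

theorem left_cov (hp : Par α β) {u v : ℝ} (hv : v ≤ cc α β) :
    Ico (FL α β u) (FL α β v) ⊆ F α β '' Ico u v := by
  have hβ := hp.hβ
  have hβ0 : 0 < β := by linarith
  intro z hz
  unfold FL at hz
  have h1 : u ≤ (z - α) / β := by rw [le_div_iff₀ hβ0]; linarith [hz.1]
  have h2 : (z - α) / β < v := by rw [div_lt_iff₀ hβ0]; linarith [hz.2]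
  refine ⟨(z - α) / β, ⟨h1, h2⟩, ?_⟩
  rw [F_lt (h2.trans_le hv)]
  unfold FL
  field_simp
  ring

theorem right_cov (hp : Par α β) {u v : ℝ} (hu : cc α β ≤ u) :
    Ico (FR α β u) (FR α β v) ⊆ F α β '' Ico u v := by
  have hβ := hp.hβ
  have hβ0 : 0 < β := by linarith
  intro z hz
  unfold FR at hz
  have h1 : u ≤ (z + 1 - α) / β := by rw [le_div_iff₀ hβ0]; linarith [hz.1]
  have h2 : (z + 1 - α) / β < v := by rw [div_lt_iff₀ hβ0]; linarith [hz.2]
  refine ⟨(z + 1 - α) / β, ⟨h1, h2⟩, ?_⟩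
  rw [F_ge (hu.trans h1)]
  unfold FR
  field_simp
  ring

/-- right open sets -/
def RO (S : Set ℝ) : Prop := ∀ x ∈ S, ∃ ε > 0, Ico x (x + ε) ⊆ S

theorem ro_Ico (u v : ℝ) : RO (Ico u v) := by
  intro x hx
  refine ⟨v - x, by linarith [hx.2], fun y hy => ⟨hx.1.trans hy.1, ?_⟩⟩
  linarith [hy.2]

theorem ro_image (hp : Par α β) {S : Set ℝ} (hS : RO S) : RO (F α β '' S) := by
  have hβ := hp.hβ
  have hβ0 : 0 < β := by linarith
  rintro _ ⟨x, hx, rfl⟩
  obtain ⟨ε, hε, hsub⟩ := hS x hx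
  rcases lt_or_ge x (cc α β) with h | h
  · set e := min ε (cc α β - x) with he
    have he0 : 0 < e := lt_min hε (by linarith)
    refine ⟨β * e, by positivity, ?_⟩
    have h1 : Ico (FL α β x) (FL α β (x + e)) ⊆ F α β '' Ico x (x + e) :=
      left_cov hp (by linarith [min_le_right ε (cc α β - x)])
    have h2 : FL α β (x + e) = F α β x + β * e := by rw [F_lt h]; unfold FL; ring
    rw [h2, ← F_lt h] at h1
    refine h1.trans (image_mono ((Ico_subset_Ico_right ?_).trans hsub))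
    linarith [min_le_left ε (cc α β - x)]
  · refine ⟨β * ε, by positivity, ?_⟩
    have h1 : Ico (FR α β x) (FR α β (x + ε)) ⊆ F α β '' Ico x (x + ε) :=
      right_cov hp h
    have h2 : FR α β (x + ε) = F α β x + β * ε := by rw [F_ge h]; unfold FR; ring
    rw [h2, ← F_ge h] at h1
    exact h1.trans (image_mono hsub)

theorem ro_iter (hp : Par α β) (n : ℕ) {S : Set ℝ} (hS : RO S) : RO ((F α β)^[n] '' S) := by
  induction n with
  | zero => simpa using hS
  | succ n ih =>
    rw [iter_succ_image]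
    exact ro_image hp ih

/-- growth of intervals at `0` -/
theorem grow0 (hp : Par α β) (N : ℕ) : ∃ ε > 0, ∀ s, 0 < s → s ≤ ε →
    Ico ((F α β)^[N] 0) ((F α β)^[N] 0 + β ^ N * s) ⊆ (F α β)^[N] '' Ico 0 s := by
  have hβ := hp.hβ
  have hβ0 : 0 < β := by linarith
  induction N with
  | zero => exact ⟨1, one_pos, fun s _ _ => by simp⟩
  | succ N ih =>
    obtain ⟨ε, hε, ih⟩ := ih
    set x := (F α β)^[N] 0 with hx
    have hpow : 0 < β ^ N := by positivity
    rcases lt_or_ge x (cc α β) with h | h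
    · refine ⟨min ε ((cc α β - x) / β ^ N), lt_min hε (div_pos (by linarith) hpow),
        fun s hs0 hs => ?_⟩
      have h1 := ih s hs0 (hs.trans (min_le_left _ _))
      have h2 : β ^ N * s ≤ cc α β - x := by
        have := hs.trans (min_le_right _ _)
        rw [le_div_iff₀ hpow] at this
        linarith
      have h3 : Ico (FL α β x) (FL α β (x + β ^ N * s)) ⊆ F α β '' Ico x (x + β ^ N * s) :=
        left_cov hp (by linarith)
      rw [iter_succ_image, Function.iterate_succ_apply', ← hx, F_lt h]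
      refine Subset.trans ?_ (image_mono h1)
      have h4 : FL α β x + β ^ (N + 1) * s = FL α β (x + β ^ N * s) := by
        unfold FL; ring
      rw [h4]
      exact h3
    · refine ⟨ε, hε, fun s hs0 hs => ?_⟩
      have h1 := ih s hs0 hs
      have h3 : Ico (FR α β x) (FR α β (x + β ^ N * s)) ⊆ F α β '' Ico x (x + β ^ N * s) :=
        right_cov hp h
      rw [iter_succ_image, Function.iterate_succ_apply', ← hx, F_ge h]
      refine Subset.trans ?_ (image_mono h1)
      have h4 : FR α β x + β ^ (N + 1) * s = FR α β (x + β ^ N * s) := by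
        unfold FR; ring
      rw [h4]
      exact h3

/-- growth of intervals at `1` -/
theorem grow1 (hp : Par α β) (N : ℕ) : ∃ y, ∃ ε > 0, ∀ s, 0 < s → s ≤ ε →
    Ico (y - β ^ N * s) y ⊆ (F α β)^[N] '' Ico (1 - s) 1 := by
  have hβ := hp.hβ
  have hβ0 : 0 < β := by linarith
  induction N with
  | zero => exact ⟨1, 1, one_pos, fun s _ _ => by simp⟩
  | succ N ih =>
    obtain ⟨y, ε, hε, ih⟩ := ih
    have hpow : 0 < β ^ N := by positivity
    rcases le_or_gt y (cc α β) with h | h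
    · refine ⟨FL α β y, ε, hε, fun s hs0 hs => ?_⟩
      have h1 := ih s hs0 hs
      have h3 : Ico (FL α β (y - β ^ N * s)) (FL α β y) ⊆ F α β '' Ico (y - β ^ N * s) y :=
        left_cov hp h
      rw [iter_succ_image]
      refine Subset.trans ?_ (image_mono h1)
      have h4 : FL α β y - β ^ (N + 1) * s = FL α β (y - β ^ N * s) := by
        unfold FL; ring
      rw [h4]
      exact h3
    · refine ⟨FR α β y, min ε ((y - cc α β) / β ^ N), lt_min hε (div_pos (by linarith) hpow),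
        fun s hs0 hs => ?_⟩
      have h1 := ih s hs0 (hs.trans (min_le_left _ _))
      have h2 : β ^ N * s ≤ y - cc α β := by
        have := hs.trans (min_le_right _ _)
        rw [le_div_iff₀ hpow] at this
        linarith
      have h3 : Ico (FR α β (y - β ^ N * s)) (FR α β y) ⊆ F α β '' Ico (y - β ^ N * s) y :=
        right_cov hp (by linarith)
      rw [iter_succ_image]
      refine Subset.trans ?_ (image_mono h1)
      have h4 : FR α β y - β ^ (N + 1) * s = FR α β (y - β ^ N * s) := by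
        unfold FR; ring
      rw [h4]
      exact h3

theorem bounds {u v : ℝ} (h : u < v) (hs : Ico u v ⊆ Ico (0 : ℝ) 1) : 0 ≤ u ∧ v ≤ 1 :=
  (Ico_subset_Ico_iff h).1 hs

/-- one step of the growth of intervals -/
theorem step (hp : Par α β) : ∃ δ > 0, ∀ u v : ℝ, 0 ≤ u → u < v → v ≤ 1 →
    ∃ m u' v', u' < v' ∧ Ico u' v' ⊆ (F α β)^[m] '' Ico u v ∧
      (δ ≤ v' - u' ∨ β * (v - u) ≤ v' - u') := by
  have hβ := hp.hβ
  have hβ0 : 0 < β := by linarith
  have hb := bc hp
  obtain ⟨N, hN⟩ := pow_unbounded_of_one_lt (2 : ℝ) hβ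
  obtain ⟨ε₀, hε₀, h0⟩ := grow0 hp N
  obtain ⟨y, ε₁, hε₁, h1⟩ := grow1 hp N
  refine ⟨min ε₀ ε₁, lt_min hε₀ hε₁, fun u v hu huv hv => ?_⟩
  rcases le_or_gt v (cc α β) with hvc | hvc
  · refine ⟨1, FL α β u, FL α β v, ?_, ?_, Or.inr ?_⟩
    · unfold FL; nlinarith
    · simpa using left_cov hp hvc
    · unfold FL; linarith
  rcases le_or_gt (cc α β) u with huc | huc
  · refine ⟨1, FR α β u, FR α β v, ?_, ?_, Or.inr ?_⟩
    · unfold FR; nlinarith
    · simpa using right_cov hp huc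
    · unfold FR; linarith
  rcases le_total (cc α β - u) (v - cc α β) with hlen | hlen
  · -- right half
    set w := β * (v - cc α β) with hw
    have hw0 : 0 < w := by rw [hw]; nlinarith
    set s := min ε₀ w with hs
    have hs0 : 0 < s := lt_min hε₀ hw0
    have h2 := h0 s hs0 (min_le_left _ _)
    have h3 : Ico (FR α β (cc α β)) (FR α β v) ⊆ F α β '' Ico (cc α β) v := right_cov hp le_rfl
    rw [hp.FR_c] at h3
    have h4 : FR α β v = w := by unfold FR; rw [hw]; linarith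
    rw [h4] at h3
    have h5 : Ico 0 s ⊆ F α β '' Ico u v :=
      (Ico_subset_Ico_right (min_le_right _ _)).trans
        (h3.trans (image_mono (Ico_subset_Ico_left huc.le)))
    refine ⟨N + 1, _, _, ?_, h2.trans ?_, ?_⟩
    · have : 0 < β ^ N * s := by positivity
      linarith
    · rw [iter_add_image]
      apply image_mono
      simpa using h5
    · rcases le_total ε₀ w with h6 | h6
      · left
        have h7 : s = ε₀ := min_eq_left h6
        rw [h7]
        have h8 := min_le_left ε₀ ε₁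
        nlinarith
      · right
        have h7 : s = w := min_eq_right h6
        rw [h7, hw]
        have h9 : 2 * (β * (v - cc α β)) ≤ β ^ N * (β * (v - cc α β)) :=
          mul_le_mul_of_nonneg_right hN.le hw0.le
        nlinarith
  · -- left half
    set w := β * (cc α β - u) with hw
    have hw0 : 0 < w := by rw [hw]; nlinarith
    set s := min ε₁ w with hs
    have hs0 : 0 < s := lt_min hε₁ hw0
    have h2 := h1 s hs0 (min_le_left _ _)
    have h3 : Ico (FL α β u) (FL α β (cc α β)) ⊆ F α β '' Ico u (cc α β) := left_cov hp le_rfl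
    rw [hp.FL_c] at h3
    have h4 : FL α β u = 1 - w := by unfold FL; rw [hw]; linarith
    rw [h4] at h3
    have h5 : Ico (1 - s) 1 ⊆ F α β '' Ico u v :=
      (Ico_subset_Ico_left (by linarith [min_le_right ε₁ w])).trans
        (h3.trans (image_mono (Ico_subset_Ico_right hvc.le)))
    refine ⟨N + 1, _, _, ?_, h2.trans ?_, ?_⟩
    · have : 0 < β ^ N * s := by positivity
      linarith
    · rw [iter_add_image]
      apply image_mono
      simpa using h5
    · rcases le_total ε₁ w with h6 | h6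
      · left
        have h7 : s = ε₁ := min_eq_left h6
        rw [h7]
        have h8 := min_le_right ε₀ ε₁
        nlinarith
      · right
        have h7 : s = w := min_eq_right h6
        rw [h7, hw]
        have h9 : 2 * (β * (cc α β - u)) ≤ β ^ N * (β * (cc α β - u)) :=
          mul_le_mul_of_nonneg_right hN.le hw0.le
        nlinarith

/-- every interval grows to a fixed size -/
theorem grow (hp : Par α β) : ∃ δ > 0, ∀ u v : ℝ, 0 ≤ u → u < v → v ≤ 1 →
    ∃ m u' v', u' < v' ∧ Ico u' v' ⊆ (F α β)^[m] '' Ico u v ∧ δ ≤ v' - u' := by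
  have hβ := hp.hβ
  have hβ0 : 0 < β := by linarith
  obtain ⟨δ, hδ, hstep⟩ := step hp
  refine ⟨δ, hδ, fun u v hu huv hv => ?_⟩
  have hsubJ : Ico u v ⊆ Ico (0 : ℝ) 1 := Ico_subset_Ico hu hv
  have key : ∀ n : ℕ, ∃ m u' v', u' < v' ∧ Ico u' v' ⊆ (F α β)^[m] '' Ico u v ∧
      (δ ≤ v' - u' ∨ β ^ n * (v - u) ≤ v' - u') := by
    intro n
    induction n with
    | zero => exact ⟨0, u, v, huv, by simp, Or.inr (by simp)⟩
    | succ n ih =>
      obtain ⟨m, u', v', h1, h2, h3⟩ := ih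
      rcases h3 with h3 | h3
      · exact ⟨m, u', v', h1, h2, Or.inl h3⟩
      · obtain ⟨h4, h5⟩ := bounds h1 (h2.trans (img_sub hp m hsubJ))
        obtain ⟨m', u'', v'', h6, h7, h8⟩ := hstep u' v' h4 h1 h5
        refine ⟨m' + m, u'', v'', h6, ?_, ?_⟩
        · rw [iter_add_image]
          exact h7.trans (image_mono h2)
        · rcases h8 with h8 | h8
          · exact Or.inl h8
          · right
            have : β ^ (n + 1) * (v - u) = β * (β ^ n * (v - u)) := by ring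
            rw [this]
            nlinarith
  obtain ⟨n, hn⟩ := pow_unbounded_of_one_lt (1 / (v - u)) hβ
  rw [div_lt_iff₀ (by linarith)] at hn
  obtain ⟨m, u', v', h1, h2, h3⟩ := key n
  refine ⟨m, u', v', h1, h2, ?_⟩
  rcases h3 with h3 | h3
  · exact h3
  · obtain ⟨h4, h5⟩ := bounds h1 (h2.trans (img_sub hp m hsubJ))
    linarith

/-- some image of `[u, v)` covers `[a, b)` -/
def Cov (α β u v a b : ℝ) : Prop := ∃ n : ℕ, Ico a b ⊆ (F α β)^[n] '' Ico u v

theorem Cov.trans {u v a b a' b' : ℝ} (h : Cov α β u v a b) (h' : Cov α β a b a' b') :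
    Cov α β u v a' b' := by
  obtain ⟨n, hn⟩ := h
  obtain ⟨m, hm⟩ := h'
  refine ⟨m + n, ?_⟩
  rw [iter_add_image]
  exact hm.trans (image_mono hn)

/-- transitivity on intervals -/
def Tr (α β : ℝ) : Prop := ∀ u v u' v' : ℝ, 0 ≤ u → u < v → v ≤ 1 → 0 ≤ u' → u' < v' → v' ≤ 1 →
  ∃ n : ℕ, ∃ x ∈ Ioo u v, (F α β)^[n] x ∈ Ioo u' v'

/-- a sub interval reached by transitivity -/
theorem Tr.sub (hp : Par α β) (htr : Tr α β) {u v a b : ℝ} (hu : 0 ≤ u) (huv : u < v)
    (hv : v ≤ 1) (ha : 0 ≤ a) (hab : a < b) (hb : b ≤ 1) :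
    ∃ n : ℕ, ∃ z z', a < z ∧ z < z' ∧ z' < b ∧ Ico z z' ⊆ (F α β)^[n] '' Ico u v := by
  obtain ⟨n, x, hx, hz⟩ := htr u v a b hu huv hv ha hab hb
  obtain ⟨ε, hε, hsub⟩ := ro_iter hp n (ro_Ico u v) _ ⟨x, ⟨hx.1.le, hx.2⟩, rfl⟩
  set z := (F α β)^[n] x with hzdef
  have h1 : z < min (z + ε) ((z + b) / 2) := lt_min (by linarith) (by linarith [hz.2])
  refine ⟨n, z, min (z + ε) ((z + b) / 2), hz.1, h1, ?_, ?_⟩
  · exact lt_of_le_of_lt (min_le_right _ _) (by linarith [hz.2])
  · exact (Ico_subset_Ico_right (min_le_left _ _)).trans hsub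

/-- an interval which is covered by some image of every interval -/
theorem exists_K (hp : Par α β) (htr : Tr α β) : ∃ a b : ℝ, 0 ≤ a ∧ a < b ∧ b ≤ 1 ∧
    ∀ u v : ℝ, 0 ≤ u → u < v → v ≤ 1 → Cov α β u v a b := by
  classical
  obtain ⟨δ, hδ, hgrow⟩ := grow hp
  obtain ⟨M, hM⟩ := exists_nat_gt (2 / δ)
  have hM0 : (0 : ℝ) < M := lt_trans (by positivity) hM
  have hMδ : 2 < M * δ := by
    rw [div_lt_iff₀ hδ] at hM
    exact hM
  set P : ℝ → ℝ → Finset ℕ := fun u v => (Finset.range M).filter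
    (fun i : ℕ => Cov α β u v ((i : ℝ) / M) (((i : ℝ) + 1) / M)) with hP
  have hPne : ∀ u v : ℝ, 0 ≤ u → u < v → v ≤ 1 → (P u v).Nonempty := by
    intro u v hu huv hv
    obtain ⟨m, u', v', h1, h2, h3⟩ := hgrow u v hu huv hv
    obtain ⟨h4, h5⟩ := bounds h1 (h2.trans (img_sub hp m (Ico_subset_Ico hu hv)))
    have h6 : u' * M ≤ (⌈u' * M⌉₊ : ℝ) := Nat.le_ceil _
    have h7 : (⌈u' * M⌉₊ : ℝ) < u' * M + 1 := Nat.ceil_lt_add_one (by positivity)
    have h8 : ((⌈u' * M⌉₊ : ℝ) + 1) ≤ v' * M := by nlinarith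
    refine ⟨⌈u' * M⌉₊, ?_⟩
    rw [hP, Finset.mem_filter, Finset.mem_range]
    constructor
    · have : (⌈u' * M⌉₊ : ℝ) < M := by nlinarith
      exact_mod_cast this
    · refine ⟨m, (Ico_subset_Ico ?_ ?_).trans h2⟩
      · rw [le_div_iff₀ hM0]; exact h6
      · rw [div_le_iff₀ hM0]; exact h8
  have hex : ∃ n : ℕ, ∃ u v : ℝ, 0 ≤ u ∧ u < v ∧ v ≤ 1 ∧ (P u v).card = n :=
    ⟨_, 0, 1, le_rfl, one_pos, le_rfl, rfl⟩
  obtain ⟨u₀, v₀, hu₀, huv₀, hv₀, hcard⟩ := Nat.find_spec hex
  obtain ⟨i, hi⟩ := hPne u₀ v₀ hu₀ huv₀ hv₀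
  have hi' := hi
  rw [hP, Finset.mem_filter, Finset.mem_range] at hi'
  obtain ⟨hiM, hicov⟩ := hi'
  have hiM' : ((i : ℝ) + 1) ≤ M := by exact_mod_cast hiM
  have ha : (0 : ℝ) ≤ (i : ℝ) / M := by positivity
  have hab : (i : ℝ) / M < ((i : ℝ) + 1) / M := by
    apply div_lt_div_of_pos_right _ hM0
    linarith
  have hb : ((i : ℝ) + 1) / M ≤ 1 := by rw [div_le_one hM0]; exact hiM'
  refine ⟨(i : ℝ) / M, ((i : ℝ) + 1) / M, ha, hab, hb, fun u v hu huv hv => ?_⟩
  obtain ⟨n, z, z', h1, h2, h3, h4⟩ := htr.sub hp hu huv hv ha hab hb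
  have hcov1 : Cov α β u v z z' := ⟨n, h4⟩
  have hcov2 : Cov α β ((i : ℝ) / M) (((i : ℝ) + 1) / M) z z' :=
    ⟨0, by simpa using Ico_subset_Ico h1.le h3.le⟩
  have hsub : P z z' ⊆ P u₀ v₀ := by
    intro j hj
    rw [hP, Finset.mem_filter] at hj ⊢
    exact ⟨hj.1, (hicov.trans hcov2).trans hj.2⟩
  have hle : (P u₀ v₀).card ≤ (P z z').card := by
    rw [hcard]
    exact Nat.find_min' hex ⟨z, z', by linarith, h2, by linarith, rfl⟩
  have heq := Finset.eq_of_subset_of_card_le hsub hle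
  rw [← heq, hP, Finset.mem_filter] at hi
  exact hcov1.trans hi.2

end

end Q78.LEO
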