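import Pool.Agent.Q78.BetaT.Defs

/-!
# Transitive and locally eventually onto maps
-/

namespace Q78.LEO

/-- Topological transitivity: for all nonempty open `U`, `V` there is `n ≥ 1` such that
`f^n(U)` meets `V`. -/
def Transitive {X : Type} [TopologicalSpace X] (f : X → X) : Prop :=
  ∀ U V : Set X, IsOpen U → IsOpen V → U.Nonempty → V.Nonempty →
    ∃ n : ℕ, 1 ≤ n ∧ ((f^[n] '' U) ∩ V).Nonempty

/-- Locally eventually onto: for every nonempty open `U` there is `n ≥ 1` such that
`f^n(U)` is the whole space. -/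
def EventuallyOnto {X : Type} [TopologicalSpace X] (f : X → X) : Prop :=
  ∀ U : Set X, IsOpen U → U.Nonempty → ∃ n : ℕ, 1 ≤ n ∧ f^[n] '' U = Set.univ

end Q78.LEO
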