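import Pool.Agent.Q78.LEO.Om

namespace Q78.LEO

open Set Q78.BetaT

section

variable {α β a b : ℝ}

/-- points joined to a point of a set -/
def Reach (W P : Set ℝ) : Set ℝ := {x | ∃ p ∈ P, Conn W x p}

theorem Reach.of_conn {W P : Set ℝ} {x y : ℝ} (h : Conn W x y) (hy : y ∈ Reach W P) :
    x ∈ Reach W P := by
  obtain ⟨p, hp, hc⟩ := hy
  exact ⟨p, hp, h.trans hc⟩

/-- There is a finite set of points such that every point of `Om` is joined to one of them. -/
theorem Good.exists_fin (h : Good α β a b) :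
    ∃ P : Set ℝ, P.Finite ∧ Om α β a b ⊆ Reach (Om α β a b) P := by
  classical
  have hp := h.par
  have hβ := hp.hβ
  have hβ0 : 0 < β := by linarith
  set W := Om α β a b with hW
  obtain ⟨n₀, e, he, he1, hz, ho⟩ := h.ends
  have hzero : Ioo 0 e ⊆ W := om_of_Ioo (Ioo_subset_Ico_self.trans hz)
  have hone : Ioo (1 - e) 1 ⊆ W := om_of_Ioo ho
  set t := e / 2 with ht
  set s := 1 - e / 2 with hs
  have htW : t ∈ W := hzero ⟨by linarith, by linarith⟩
  have hsW : s ∈ W := hone ⟨by linarith, by linarith⟩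
  have hext := h.hit htW
  have hexs := h.hit hsW
  set m := Nat.find hext with hm
  set m' := Nat.find hexs with hm'
  have hmspec : Conn W ((F α β)^[m] t) (cc α β) := Nat.find_spec hext
  have hmspec' : Conn W ((F α β)^[m'] s) (cc α β) := Nat.find_spec hexs
  have hmmin : ∀ j < m, ¬ Conn W ((F α β)^[j] t) (cc α β) := fun j hj => Nat.find_min hext hj
  have hmmin' : ∀ j < m', ¬ Conn W ((F α β)^[j] s) (cc α β) := fun j hj => Nat.find_min hexs hj
  set P : Set ℝ := ((fun j => (F α β)^[j] t) '' {j | j ≤ m}) ∪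
    ((fun j => (F α β)^[j] s) '' {j | j ≤ m'}) with hP
  have hPfin : P.Finite := ((Set.finite_le_nat _).image _).union ((Set.finite_le_nat _).image _)
  have hPt : ∀ j ≤ m, (F α β)^[j] t ∈ P := fun j hj => Or.inl ⟨j, hj, rfl⟩
  have hPs : ∀ j ≤ m', (F α β)^[j] s ∈ P := fun j hj => Or.inr ⟨j, hj, rfl⟩
  -- points joined to `c`
  have hfin : ∀ x, Conn W x (cc α β) → x ≠ cc α β → F α β x ∈ Reach W P := by
    intro x hx hxc
    have hx01 := h.om_sub hx.left_mem
    rcases lt_or_gt_of_ne hxc with h1 | h1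
    · have h2 := hx.Icc_subset h1.le
      have h3 : Ico (F α β x) 1 ⊆ W := by
        intro z hz
        rw [F_lt h1] at hz
        unfold FL at hz
        have h3 : x ≤ (z - α) / β := by rw [le_div_iff₀ hβ0]; linarith [hz.1]
        have h4 : (z - α) / β < cc α β := by
          rw [div_lt_iff₀ hβ0]; linarith [hz.2, bc hp]
        have h5 := h.om_map (h2 ⟨h3, h4.le⟩) h4.ne
        rw [F_lt h4] at h5
        have h6 : FL α β ((z - α) / β) = z := by unfold FL; field_simp; ring
        rwa [h6] at h5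
      have hF1 : F α β x < 1 := (F_mem hp ⟨hx01.1.le, hx01.2⟩).2
      refine ⟨s, hPs 0 (Nat.zero_le _), fun z hz => ?_⟩
      rcases le_total (F α β x) z with h4 | h4
      · apply h3 ⟨h4, ?_⟩
        have h5 : z ≤ max (F α β x) s := hz.2
        refine lt_of_le_of_lt h5 (max_lt hF1 (by linarith))
      · have h5 : min (F α β x) s ≤ z := hz.1
        rcases min_le_iff.1 h5 with h6 | h6
        · rw [le_antisymm h4 h6]
          exact h3 ⟨le_rfl, hF1⟩
        · exact hone ⟨by linarith, lt_of_le_of_lt h4 hF1⟩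
    · have h2 := hx.symm.Icc_subset h1.le
      have h3 : Ioc 0 (F α β x) ⊆ W := by
        intro z hz
        rw [F_ge h1.le] at hz
        unfold FR at hz
        have h3 : (z + 1 - α) / β ≤ x := by rw [div_le_iff₀ hβ0]; linarith [hz.2]
        have h4 : cc α β < (z + 1 - α) / β := by
          rw [lt_div_iff₀ hβ0]; linarith [hz.1, bc hp]
        have h5 := h.om_map (h2 ⟨h4.le, h3⟩) h4.ne'
        rw [F_ge h4.le] at h5
        have h6 : FR α β ((z + 1 - α) / β) = z := by unfold FR; field_simp; ring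
        rwa [h6] at h5
      have hF0 : 0 < F α β x := by
        rw [F_ge h1.le]
        unfold FR
        nlinarith [bc hp]
      refine ⟨t, hPt 0 (Nat.zero_le _), fun z hz => ?_⟩
      rcases le_total z (F α β x) with h4 | h4
      · refine h3 ⟨?_, h4⟩
        have h5 : min (F α β x) t ≤ z := hz.1
        exact lt_of_lt_of_le (lt_min hF0 (by linarith)) h5
      · have h5 : z ≤ max (F α β x) t := hz.2
        rcases le_max_iff.1 h5 with h6 | h6
        · rw [le_antisymm h6 h4]
          exact h3 ⟨hF0, le_rfl⟩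
        · exact hzero ⟨lt_of_lt_of_le hF0 h4, by linarith⟩
  have hinv : ∀ x ∈ Reach W P, x ≠ cc α β → F α β x ∈ Reach W P := by
    rintro x ⟨p, hpP, hc⟩ hxc
    rcases hpP with ⟨j, hj, rfl⟩ | ⟨j, hj, rfl⟩
    · rw [Set.mem_ofPred_eq] at hj
      rcases Nat.lt_or_ge j m with h1 | h1
      · have hn : cc α β ∉ uIcc x ((F α β)^[j] t) := fun hc' =>
          hmmin j h1 (hc.of_mem hc').symm
        refine ⟨_, hPt (j + 1) h1, ?_⟩
        rw [Function.iterate_succ_apply']
        exact h.conn_F hc hn
      · have : j = m := le_antisymm hj h1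
        subst this
        exact hfin x (hc.trans hmspec) hxc
    · rw [Set.mem_ofPred_eq] at hj
      rcases Nat.lt_or_ge j m' with h1 | h1
      · have hn : cc α β ∉ uIcc x ((F α β)^[j] s) := fun hc' =>
          hmmin' j h1 (hc.of_mem hc').symm
        refine ⟨_, hPs (j + 1) h1, ?_⟩
        rw [Function.iterate_succ_apply']
        exact h.conn_F hc hn
      · have : j = m' := le_antisymm hj h1
        subst this
        exact hfin x (hc.trans hmspec') hxc
  obtain ⟨r, hr, hrW⟩ := om_nhd h.om_c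
  rw [← hW] at hrW
  have hU : ∀ u ∈ Ioo (cc α β - r) (cc α β + r), u ∈ Reach W P := by
    intro u hu
    have h1 : Conn W u (cc α β) := by
      intro z hz
      apply hrW
      constructor
      · have h2 : min u (cc α β) ≤ z := hz.1
        exact lt_of_lt_of_le (lt_min hu.1 (by linarith)) h2
      · have h2 : z ≤ max u (cc α β) := hz.2
        exact lt_of_le_of_lt h2 (max_lt hu.2 (by linarith))
    exact ⟨_, hPt m le_rfl, h1.trans hmspec.symm⟩
  have horb : ∀ n : ℕ, ∀ u ∈ Ioo (cc α β - r) (cc α β + r),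
      (F α β)^[n] u ∈ Reach W P ∪ range (fun j : ℕ => (F α β)^[j] 0) := by
    intro n u hu
    induction n with
    | zero => exact Or.inl (hU u hu)
    | succ n ih =>
      rw [Function.iterate_succ_apply']
      rcases ih with ih | ⟨j, hj⟩
      · by_cases hxc : (F α β)^[n] u = cc α β
        · right
          refine ⟨0, ?_⟩
          rw [hxc, F_c hp]
          rfl
        · exact Or.inl (hinv _ ih hxc)
      · right
        refine ⟨j + 1, ?_⟩
        simp only at hj ⊢
        rw [Function.iterate_succ_apply', hj]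
  refine ⟨P, hPfin, fun z hz' => ?_⟩
  obtain ⟨n, ε, hε, hsub⟩ := hz'
  obtain ⟨ε', hε', hsub'⟩ := om_nhd (show z ∈ Om α β a b from ⟨n, ε, hε, hsub⟩)
  have hcpos := hp.c_pos
  have hclt := hp.c_lt
  set r' := min r (min (cc α β) (1 - cc α β)) / 2 with hr'
  have hr0 : 0 < min r (min (cc α β) (1 - cc α β)) := by
    apply lt_min hr (lt_min hcpos (by linarith))
  have h1 : min r (min (cc α β) (1 - cc α β)) ≤ r := min_le_left _ _
  have h2 : min r (min (cc α β) (1 - cc α β)) ≤ cc α β :=
    (min_le_right _ _).trans (min_le_left _ _)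
  have h3 : min r (min (cc α β) (1 - cc α β)) ≤ 1 - cc α β :=
    (min_le_right _ _).trans (min_le_right _ _)
  obtain ⟨q, hq⟩ := h.cov (cc α β - r') (cc α β + r') (by linarith) (by linarith) (by linarith)
  have hall : Ioo (z - ε) (z + ε) ⊆ Reach W P ∪ range (fun j : ℕ => (F α β)^[j] 0) := by
    intro y hy
    obtain ⟨x, hx, rfl⟩ := hsub hy
    obtain ⟨w, hw, rfl⟩ := hq hx
    rw [← Function.iterate_add_apply]
    exact horb _ w ⟨by linarith [hw.1], by linarith [hw.2]⟩
  have hcount : (range (fun j : ℕ => (F α β)^[j] 0)).Countable := countable_range _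
  obtain ⟨w, hw1, hw2⟩ := (hcount.dense_compl ℝ).exists_mem_open isOpen_Ioo
    (show (Ioo (z - min ε ε') (z + min ε ε')).Nonempty from
      ⟨z, by linarith [lt_min hε hε'], by linarith [lt_min hε hε']⟩)
  have hwR : w ∈ Reach W P := by
    have h4 : w ∈ Ioo (z - ε) (z + ε) :=
      ⟨by linarith [hw2.1, min_le_left ε ε'], by linarith [hw2.2, min_le_left ε ε']⟩
    rcases hall h4 with h5 | h5
    · exact h5
    · exact absurd h5 hw1
  refine Reach.of_conn (y := w) ?_ hwR
  intro y hy
  apply hsub'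
  have h4 : min z w ≤ y := hy.1
  have h5 : y ≤ max z w := hy.2
  have h6 : z - ε' < min z w := lt_min (by linarith) (by linarith [hw2.1, min_le_right ε ε'])
  have h7 : max z w < z + ε' := max_lt (by linarith) (by linarith [hw2.2, min_le_right ε ε'])
  exact ⟨lt_of_lt_of_le h6 h4, lt_of_le_of_lt h5 h7⟩

/-- the points without a covered neighbourhood -/
def Bd (α β a b : ℝ) : Set ℝ := Ioo (0 : ℝ) 1 \ Om α β a b

theorem Good.bd_finite (h : Good α β a b) : (Bd α β a b).Finite := by
  obtain ⟨P, hPfin, hP⟩ := h.exists_fin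
  set W := Om α β a b with hW
  apply (hPfin.image (fun p => sInf {x | Conn W x p})).subset
  rintro y ⟨hy01, hyW⟩
  rw [← hW] at hyW
  have hex : ∃ p ∈ P, ∀ ε > 0, ∃ x ∈ Ioo y (y + ε), Conn W x p := by
    by_contra hcon
    push Not at hcon
    choose! ε hε hno using hcon
    rcases P.eq_empty_or_nonempty with hPe | hPne
    · have := hP h.om_c
      rw [hPe] at this
      obtain ⟨p, hp, -⟩ := this
      exact hp
    · obtain ⟨p₀, hp₀, hmin⟩ := exists_min_image P ε hPfin hPne
      have h1 : y < min (y + ε p₀) 1 := lt_min (by linarith [hε p₀ hp₀]) hy01.2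
      obtain ⟨x, hx1, hx2⟩ := h.om_dense hy01.1.le h1 (min_le_right _ _)
      obtain ⟨p, hpP, hc⟩ := hP hx2
      refine hno p hpP x ⟨hx1.1, ?_⟩ hc
      have h2 := hmin p hpP
      have h3 := lt_of_lt_of_le hx1.2 (min_le_left (y + ε p₀) 1)
      linarith
  obtain ⟨p, hpP, hpe⟩ := hex
  refine ⟨p, hpP, ?_⟩
  have hglb : IsGLB {x | Conn W x p} y := by
    constructor
    · intro z hz
      by_contra hcon
      have hzy : z < y := not_le.1 hcon
      obtain ⟨x, hx, hc⟩ := hpe 1 one_pos
      have h1 : Conn W z x := Conn.trans hz hc.symm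
      have h2 := h1.Icc_subset (by linarith [hx.1])
      exact hyW (h2 ⟨hzy.le, hx.1.le⟩)
    · intro z hz
      by_contra hcon
      have hyz : y < z := not_le.1 hcon
      obtain ⟨x, hx, hc⟩ := hpe (z - y) (by linarith)
      have h1 : z ≤ x := hz hc
      linarith [hx.2]
  obtain ⟨x, -, hc⟩ := hpe 1 one_pos
  exact hglb.csInf_eq ⟨x, hc⟩

end

end Q78.LEO
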