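import Pool.Agent.Q78.LEO.Alg

namespace Q78.LEO

open Set Q78.BetaT Filter Topology

section

variable {α β a b : ℝ}

/-- `x` is inside the `n`-th image -/
def Nh (α β a b : ℝ) (n : ℕ) (x : ℝ) : Prop :=
  ∃ ε > 0, Ioo (x - ε) (x + ε) ⊆ (F α β)^[n] '' Ico a b

/-- two images which share an interval lie in a common image -/
theorem Good.upper (h : Good α β a b) {n m : ℕ} {x : ℝ} (hn : Nh α β a b n x)
    (hm : Nh α β a b m x) : ∃ q : ℕ, (F α β)^[n] '' Ico a b ⊆ (F α β)^[q] '' Ico a b ∧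
      (F α β)^[m] '' Ico a b ⊆ (F α β)^[q] '' Ico a b := by
  obtain ⟨ε, hε, h1⟩ := hn
  obtain ⟨ε', hε', h2⟩ := hm
  have hx := h.om_sub (show x ∈ Om α β a b from ⟨n, ε, hε, h1⟩)
  set e := min (min ε ε') (1 - x) / 2 with he
  have h0 : 0 < min (min ε ε') (1 - x) := lt_min (lt_min hε hε') (by linarith [hx.2])
  have h3 : min (min ε ε') (1 - x) ≤ ε := (min_le_left _ _).trans (min_le_left _ _)
  have h4 : min (min ε ε') (1 - x) ≤ ε' := (min_le_left _ _).trans (min_le_right _ _)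
  have h5 : min (min ε ε') (1 - x) ≤ 1 - x := min_le_right _ _
  obtain ⟨p, hp⟩ := h.cov x (x + e) hx.1.le (by linarith) (by linarith)
  have h6 : Ico x (x + e) ⊆ (F α β)^[n] '' Ico a b :=
    fun y hy => h1 ⟨by linarith [hy.1], by linarith [hy.2]⟩
  have h7 : Ico x (x + e) ⊆ (F α β)^[m] '' Ico a b :=
    fun y hy => h2 ⟨by linarith [hy.1], by linarith [hy.2]⟩
  have h8 : Ico a b ⊆ (F α β)^[p + n] '' Ico a b := by
    rw [iter_add_image]
    exact hp.trans (image_mono h6)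
  have h9 : Ico a b ⊆ (F α β)^[p + m] '' Ico a b := by
    rw [iter_add_image]
    exact hp.trans (image_mono h7)
  refine ⟨n + (p + m), ?_, ?_⟩
  · rw [iter_add_image]
    exact image_mono h9
  · have h10 : n + (p + m) = m + (p + n) := by ring
    rw [h10, iter_add_image]
    exact image_mono h8

theorem Nh.mono {n m : ℕ} {x : ℝ} (h : Nh α β a b n x)
    (hs : (F α β)^[n] '' Ico a b ⊆ (F α β)^[m] '' Ico a b) : Nh α β a b m x := by
  obtain ⟨ε, hε, h1⟩ := h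
  exact ⟨ε, hε, h1.trans hs⟩

theorem Nh.near {n : ℕ} {x : ℝ} (h : Nh α β a b n x) : ∀ᶠ y in 𝓝 x, Nh α β a b n y := by
  obtain ⟨ε, hε, h1⟩ := h
  have : Ioo (x - ε / 2) (x + ε / 2) ∈ 𝓝 x := Ioo_mem_nhds (by linarith) (by linarith)
  filter_upwards [this] with y hy
  exact ⟨ε / 2, by positivity, (Ioo_subset_Ioo (by linarith [hy.1]) (by linarith [hy.2])).trans h1⟩

theorem Good.joint (h : Good α β a b) (hB : Bd α β a b = ∅) {x y : ℝ} (hx : x ∈ Ioo (0 : ℝ) 1)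
    (hy : y ∈ Ioo (0 : ℝ) 1) : ∃ n, Nh α β a b n x ∧ Nh α β a b n y := by
  have hall : ∀ z ∈ Ioo (0 : ℝ) 1, ∃ n, Nh α β a b n z := by
    intro z hz
    by_contra hcon
    have : z ∈ Bd α β a b := ⟨hz, fun hW => hcon hW⟩
    rw [hB] at this
    exact this
  refine isPreconnected_Ioo.induction₂ (fun x y => ∃ n, Nh α β a b n x ∧ Nh α β a b n y)
    ?_ ?_ ?_ hx hy
  · intro z hz
    obtain ⟨n, hn⟩ := hall z hz
    filter_upwards [mem_nhdsWithin_of_mem_nhds hn.near] with w hw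
    exact ⟨n, hn, hw⟩
  · rintro x y z _ _ _ ⟨n, h1, h2⟩ ⟨m, h3, h4⟩
    obtain ⟨q, h5, h6⟩ := h.upper h2 h3
    exact ⟨q, h1.mono h5, h4.mono h6⟩
  · rintro x y _ _ ⟨n, h1, h2⟩
    exact ⟨n, h2, h1⟩

theorem Good.exists_nh (h : Good α β a b) (n : ℕ) : ∃ x, Nh α β a b n x := by
  have h1 : (F α β)^[n] a ∈ (F α β)^[n] '' Ico a b := ⟨a, ⟨le_rfl, h.hab⟩, rfl⟩
  obtain ⟨ε, hε, hsub⟩ := ro_iter h.par n (ro_Ico a b) _ h1
  refine ⟨(F α β)^[n] a + ε / 2, ε / 2, by positivity, Subset.trans ?_ hsub⟩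
  intro y hy
  exact ⟨by linarith [hy.1], by linarith [hy.2]⟩

theorem Good.directed (h : Good α β a b) (hB : Bd α β a b = ∅) (n m : ℕ) :
    ∃ q : ℕ, (F α β)^[n] '' Ico a b ⊆ (F α β)^[q] '' Ico a b ∧
      (F α β)^[m] '' Ico a b ⊆ (F α β)^[q] '' Ico a b := by
  obtain ⟨x, hx⟩ := h.exists_nh n
  obtain ⟨y, hy⟩ := h.exists_nh m
  obtain ⟨r, h1, h2⟩ := h.joint hB (h.om_sub ⟨n, hx⟩) (h.om_sub ⟨m, hy⟩)
  obtain ⟨q₁, h3, h4⟩ := h.upper hx h1
  obtain ⟨q₂, h5, h6⟩ := h.upper (h2.mono h4) hy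
  exact ⟨q₂, h3.trans h5, h6⟩

theorem Good.full (h : Good α β a b) (hB : Bd α β a b = ∅) :
    ∃ n : ℕ, Ico (0 : ℝ) 1 ⊆ (F α β)^[n] '' Ico a b := by
  obtain ⟨n₀, e, he, he1, hz, ho⟩ := h.ends
  have hcomp : IsCompact (Icc (e / 2) (1 - e / 2)) := isCompact_Icc
  obtain ⟨n₁, hn₁⟩ := hcomp.elim_directed_cover
    (fun n : ℕ => interior ((F α β)^[n] '' Ico a b)) (fun _ => isOpen_interior)
    (by
      intro x hx
      have hx01 : x ∈ Ioo (0 : ℝ) 1 := ⟨by linarith [hx.1], by linarith [hx.2]⟩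
      obtain ⟨n, ⟨ε, hε, h1⟩, -⟩ := h.joint hB hx01 hx01
      rw [mem_iUnion]
      exact ⟨n, mem_interior.2 ⟨_, h1, isOpen_Ioo, by linarith, by linarith⟩⟩)
    (by
      intro n m
      obtain ⟨q, h1, h2⟩ := h.directed hB n m
      exact ⟨q, interior_mono h1, interior_mono h2⟩)
  obtain ⟨q, h1, h2⟩ := h.directed hB n₀ n₁
  refine ⟨q, fun x hx => ?_⟩
  rcases lt_or_ge x e with h3 | h3
  · exact h1 (hz ⟨hx.1, h3⟩)
  · rcases lt_or_ge (1 - e) x with h4 | h4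
    · exact h1 (ho ⟨h4, hx.2⟩)
    · exact h2 (interior_subset (hn₁ ⟨by linarith, by linarith⟩))

end

section

variable {α β : ℝ}

theorem T_val (hp : Par α β) (x : Ico (0 : ℝ) 1) : (T α β x : ℝ) = F α β x.1 := by
  rcases lt_or_ge x.1 (cc α β) with h | h
  · rw [T_left hp x h, F_lt h]
  · rw [T_right hp x h, F_ge h]

theorem T_iter (hp : Par α β) (n : ℕ) (x : Ico (0 : ℝ) 1) :
    ((T α β)^[n] x : ℝ) = (F α β)^[n] x.1 := by
  induction n with
  | zero => rfl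
  | succ n ih => rw [Function.iterate_succ_apply', Function.iterate_succ_apply', T_val hp, ih]

theorem tr_of (hp : Par α β) (h : Transitive (T α β)) : Tr α β := by
  intro u v u' v' hu huv hv hu' huv' hv'
  have hopen : ∀ s t : ℝ, IsOpen {x : Ico (0 : ℝ) 1 | x.1 ∈ Ioo s t} := fun s t =>
    isOpen_Ioo.preimage continuous_subtype_val
  have hne : ∀ s t : ℝ, 0 ≤ s → s < t → t ≤ 1 → {x : Ico (0 : ℝ) 1 | x.1 ∈ Ioo s t}.Nonempty :=
    fun s t hs hst ht => ⟨⟨(s + t) / 2, by linarith, by linarith⟩, by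
      show (s + t) / 2 ∈ Ioo s t
      exact ⟨by linarith, by linarith⟩⟩
  obtain ⟨n, -, y, ⟨x, hx, rfl⟩, hy⟩ := h _ _ (hopen u v) (hopen u' v') (hne u v hu huv hv)
    (hne u' v' hu' huv' hv')
  refine ⟨n, x.1, hx, ?_⟩
  rw [← T_iter hp]
  exact hy

theorem T_surj (hp : Par α β) : Function.Surjective (T α β) := by
  have hβ := hp.hβ
  have hβ0 : 0 < β := by linarith
  have hα := hp.hα
  intro y
  have hy0 := y.2.1
  have hy1 := y.2.2
  rcases lt_or_ge y.1 (α + β - 1) with h | h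
  · have hx0 : 0 ≤ (y.1 + 1 - α) / β := div_nonneg (by linarith [hp.hs]) hβ0.le
    have hx1 : (y.1 + 1 - α) / β < 1 := by rw [div_lt_one hβ0]; linarith
    refine ⟨⟨_, hx0, hx1⟩, Subtype.ext ?_⟩
    rw [T_val hp, F_ge]
    · show FR α β ((y.1 + 1 - α) / β) = y.1
      unfold FR; field_simp; ring
    · show cc α β ≤ (y.1 + 1 - α) / β
      unfold cc
      apply div_le_div_of_nonneg_right _ hβ0.le
      linarith
  · have hx0 : 0 ≤ (y.1 - α) / β := div_nonneg (by linarith) hβ0.le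
    have hx1 : (y.1 - α) / β < 1 := by rw [div_lt_one hβ0]; linarith
    refine ⟨⟨_, hx0, hx1⟩, Subtype.ext ?_⟩
    rw [T_val hp, F_lt]
    · show FL α β ((y.1 - α) / β) = y.1
      unfold FL; field_simp; ring
    · show (y.1 - α) / β < cc α β
      unfold cc
      apply div_lt_div_of_pos_right _ hβ0
      linarith

/-- a transitive map which is not locally eventually onto has algebraic parameters -/
theorem algebraic_of (hp : Par α β) (h1 : Transitive (T α β)) (h2 : ¬ EventuallyOnto (T α β)) :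
    IsAlgebraic ℚ α ∧ IsAlgebraic ℚ β := by
  have htr := tr_of hp h1
  obtain ⟨a, b, ha, hab, hb, hcov⟩ := exists_K hp htr
  have hG : Good α β a b := ⟨hp, htr, ha, hab, hb, hcov⟩
  rcases (Bd α β a b).eq_empty_or_nonempty with hB | hB
  · exfalso
    apply h2
    obtain ⟨N, hN⟩ := hG.full hB
    intro U hU hne
    obtain ⟨u, v, huv, hu, hv, hsub⟩ := exists_Ioo hU hne
    obtain ⟨m, hm⟩ := hcov ((2 * u + v) / 3) ((u + 2 * v) / 3) (by linarith) (by linarith)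
      (by linarith)
    refine ⟨N + m + 1, by omega, ?_⟩
    rw [eq_univ_iff_forall]
    intro y
    obtain ⟨y', rfl⟩ := T_surj hp y
    have h3 : Ico (0 : ℝ) 1 ⊆ (F α β)^[N + m] '' Ico ((2 * u + v) / 3) ((u + 2 * v) / 3) := by
      rw [iter_add_image]
      exact hN.trans (image_mono hm)
    obtain ⟨x, hx, hxy⟩ := h3 y'.2
    have hx01 : x ∈ Ico (0 : ℝ) 1 := ⟨by linarith [hx.1], by linarith [hx.2]⟩
    refine ⟨⟨x, hx01⟩, hsub x ⟨by linarith [hx.1], by linarith [hx.2]⟩ hx01, ?_⟩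
    rw [Function.iterate_succ_apply']
    congr 1
    apply Subtype.ext
    rw [T_iter hp]
    exact hxy
  · exact hG.algebraic hB

/-- The parameters of the transitive maps `T_{α,β}` which are not locally eventually onto form a
countable set. -/
theorem countable_exceptions :
    {p : ℝ × ℝ | 1 < p.2 ∧ p.2 ≤ 2 ∧ 0 ≤ p.1 ∧ p.1 + p.2 ≤ 2 ∧
      Transitive (T p.1 p.2) ∧ ¬ EventuallyOnto (T p.1 p.2)}.Countable := by
  have hA : {x : ℝ | IsAlgebraic ℚ x}.Countable := Algebraic.countable ℚ ℝ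
  refine (hA.prod hA).mono ?_
  rintro ⟨α, β⟩ ⟨h1, -, h3, h4, h5, h6⟩
  exact algebraic_of ⟨h1, h3, h4⟩ h5 h6

end

end Q78.LEO
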