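import Pool.Agent.Q78.LEO.Core

namespace Q78.LEO

open Set Q78.BetaT

/-- the points which have a neighbourhood inside some image of `[a, b)` -/
def Om (α β a b : ℝ) : Set ℝ :=
  {x | ∃ n : ℕ, ∃ ε > 0, Ioo (x - ε) (x + ε) ⊆ (F α β)^[n] '' Ico a b}

/-- the interval `[a, b)` is covered by some image of every interval -/
structure Good (α β a b : ℝ) : Prop where
  par : Par α β
  tr : Tr α β
  ha : 0 ≤ a
  hab : a < b
  hb : b ≤ 1
  cov : ∀ u v : ℝ, 0 ≤ u → u < v → v ≤ 1 → Cov α β u v a b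

section

variable {α β a b : ℝ}

theorem Good.sub (h : Good α β a b) (n : ℕ) : (F α β)^[n] '' Ico a b ⊆ Ico (0 : ℝ) 1 :=
  img_sub h.par n (Ico_subset_Ico h.ha h.hb)

theorem Good.om_sub (h : Good α β a b) {x : ℝ} (hx : x ∈ Om α β a b) : x ∈ Ioo (0 : ℝ) 1 := by
  obtain ⟨n, ε, hε, hsub⟩ := hx
  have h1 := h.sub n (hsub (show x - ε / 2 ∈ Ioo (x - ε) (x + ε) from
    ⟨by linarith, by linarith⟩))
  have h2 := h.sub n (hsub (show x + ε / 2 ∈ Ioo (x - ε) (x + ε) from
    ⟨by linarith, by linarith⟩))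
  exact ⟨by linarith [h1.1], by linarith [h2.2]⟩

theorem om_nhd {x : ℝ} (hx : x ∈ Om α β a b) : ∃ ε > 0, Ioo (x - ε) (x + ε) ⊆ Om α β a b := by
  obtain ⟨n, ε, hε, hsub⟩ := hx
  refine ⟨ε / 2, by positivity, fun y hy => ⟨n, ε / 2, by positivity, ?_⟩⟩
  exact (Ioo_subset_Ioo (by linarith [hy.1]) (by linarith [hy.2])).trans hsub

theorem om_of_Ioo {u v : ℝ} {n : ℕ} (h : Ioo u v ⊆ (F α β)^[n] '' Ico a b) :
    Ioo u v ⊆ Om α β a b := by
  intro x hx
  refine ⟨n, min (x - u) (v - x), lt_min (by linarith [hx.1]) (by linarith [hx.2]), ?_⟩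
  refine (Ioo_subset_Ioo ?_ ?_).trans h
  · linarith [min_le_left (x - u) (v - x)]
  · linarith [min_le_right (x - u) (v - x)]

theorem left_cov' (hp : Par α β) {u v : ℝ} (hv : v ≤ cc α β) :
    Ioo (FL α β u) (FL α β v) ⊆ F α β '' Ioo u v := by
  have hβ := hp.hβ
  have hβ0 : 0 < β := by linarith
  intro z hz
  unfold FL at hz
  have h1 : u < (z - α) / β := by rw [lt_div_iff₀ hβ0]; linarith [hz.1]
  have h2 : (z - α) / β < v := by rw [div_lt_iff₀ hβ0]; linarith [hz.2]
  refine ⟨(z - α) / β, ⟨h1, h2⟩, ?_⟩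
  rw [F_lt (h2.trans_le hv)]
  unfold FL
  field_simp
  ring

theorem right_cov' (hp : Par α β) {u v : ℝ} (hu : cc α β ≤ u) :
    Ioo (FR α β u) (FR α β v) ⊆ F α β '' Ioo u v := by
  have hβ := hp.hβ
  have hβ0 : 0 < β := by linarith
  intro z hz
  unfold FR at hz
  have h1 : u < (z + 1 - α) / β := by rw [lt_div_iff₀ hβ0]; linarith [hz.1]
  have h2 : (z + 1 - α) / β < v := by rw [div_lt_iff₀ hβ0]; linarith [hz.2]
  refine ⟨(z + 1 - α) / β, ⟨h1, h2⟩, ?_⟩
  rw [F_ge (hu.trans h1.le)]
  unfold FR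
  field_simp
  ring

theorem Good.om_map (h : Good α β a b) {x : ℝ} (hx : x ∈ Om α β a b) (hxc : x ≠ cc α β) :
    F α β x ∈ Om α β a b := by
  have hp := h.par
  have hβ := hp.hβ
  have hβ0 : 0 < β := by linarith
  obtain ⟨n, ε, hε, hsub⟩ := hx
  rcases lt_or_gt_of_ne hxc with h1 | h1
  · set e := min ε (cc α β - x) with he
    have he0 : 0 < e := lt_min hε (by linarith)
    have h2 := left_cov' hp (u := x - e) (v := x + e) (by linarith [min_le_right ε (cc α β - x)])
    have h3 : Ioo (x - e) (x + e) ⊆ Ioo (x - ε) (x + ε) :=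
      Ioo_subset_Ioo (by linarith [min_le_left ε (cc α β - x)])
        (by linarith [min_le_left ε (cc α β - x)])
    refine ⟨n + 1, β * e, by positivity, ?_⟩
    rw [iter_succ_image]
    refine Subset.trans ?_ ((h2.trans (image_mono h3)).trans (image_mono hsub))
    rw [F_lt h1]
    unfold FL
    apply Ioo_subset_Ioo <;> linarith
  · set e := min ε (x - cc α β) with he
    have he0 : 0 < e := lt_min hε (by linarith)
    have h2 := right_cov' hp (u := x - e) (v := x + e) (by linarith [min_le_right ε (x - cc α β)])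
    have h3 : Ioo (x - e) (x + e) ⊆ Ioo (x - ε) (x + ε) :=
      Ioo_subset_Ioo (by linarith [min_le_left ε (x - cc α β)])
        (by linarith [min_le_left ε (x - cc α β)])
    refine ⟨n + 1, β * e, by positivity, ?_⟩
    rw [iter_succ_image]
    refine Subset.trans ?_ ((h2.trans (image_mono h3)).trans (image_mono hsub))
    rw [F_ge h1.le]
    unfold FR
    apply Ioo_subset_Ioo <;> linarith

theorem Good.om_dense (h : Good α β a b) {u v : ℝ} (hu : 0 ≤ u) (huv : u < v) (hv : v ≤ 1) :
    ∃ x ∈ Ioo u v, x ∈ Om α β a b := by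
  obtain ⟨n, z, z', h1, h2, h3, h4⟩ := h.tr.sub h.par h.ha h.hab h.hb hu huv hv
  refine ⟨(z + z') / 2, ⟨by linarith, by linarith⟩, ?_⟩
  apply om_of_Ioo (Ioo_subset_Ico_self.trans h4)
  exact ⟨by linarith, by linarith⟩

theorem Good.om_c (h : Good α β a b) : cc α β ∈ Om α β a b := by
  have hp := h.par
  have hβ := hp.hβ
  have hβ0 : 0 < β := by linarith
  by_contra hcon
  have key : ∀ n : ℕ, ∃ u v, u < v ∧ β ^ n * (b - a) ≤ v - u ∧
      Ico u v ⊆ (F α β)^[n] '' Ico a b := by
    intro n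
    induction n with
    | zero => exact ⟨a, b, h.hab, by simp, by simp⟩
    | succ n ih =>
      obtain ⟨u, v, h1, h2, h3⟩ := ih
      have hpow : β ^ (n + 1) * (b - a) = β * (β ^ n * (b - a)) := by ring
      rw [iter_succ_image, hpow]
      rcases le_or_gt v (cc α β) with h4 | h4
      · refine ⟨FL α β u, FL α β v, by unfold FL; nlinarith, by unfold FL; nlinarith, ?_⟩
        exact (left_cov hp h4).trans (image_mono h3)
      · rcases le_or_gt (cc α β) u with h5 | h5
        · refine ⟨FR α β u, FR α β v, by unfold FR; nlinarith, by unfold FR; nlinarith, ?_⟩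
          exact (right_cov hp h5).trans (image_mono h3)
        · exact absurd (om_of_Ioo (Ioo_subset_Ico_self.trans h3) ⟨h5, h4⟩) hcon
  obtain ⟨n, hn⟩ := pow_unbounded_of_one_lt (1 / (b - a)) hβ
  rw [div_lt_iff₀ (by linarith [h.hab])] at hn
  obtain ⟨u, v, h1, h2, h3⟩ := key n
  obtain ⟨h4, h5⟩ := bounds h1 (h3.trans (h.sub n))
  linarith

/-- the two ends are covered -/
theorem Good.ends (h : Good α β a b) : ∃ n : ℕ, ∃ e > 0, e < 1 ∧
    Ico 0 e ⊆ (F α β)^[n] '' Ico a b ∧ Ioo (1 - e) 1 ⊆ (F α β)^[n] '' Ico a b := by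
  have hp := h.par
  have hβ := hp.hβ
  have hβ0 : 0 < β := by linarith
  obtain ⟨n, ε, hε, hsub⟩ := h.om_c
  have h1 := right_cov hp (u := cc α β) (v := cc α β + ε) le_rfl
  have h2 := left_cov' hp (u := cc α β - ε) (v := cc α β) le_rfl
  rw [hp.FR_c] at h1
  rw [hp.FL_c] at h2
  have h3 : FR α β (cc α β + ε) = β * ε := by
    have := hp.FR_c
    unfold FR at this ⊢
    linarith
  have h4 : FL α β (cc α β - ε) = 1 - β * ε := by
    have := hp.FL_c
    unfold FL at this ⊢
    linarith
  rw [h3] at h1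
  rw [h4] at h2
  set e := min (β * ε) (1 / 2) with he
  have he0 : 0 < e := lt_min (by positivity) (by norm_num)
  refine ⟨n + 1, e, he0, ?_, ?_, ?_⟩
  · exact lt_of_le_of_lt (min_le_right _ _) (by norm_num)
  · rw [iter_succ_image]
    refine (Ico_subset_Ico_right (min_le_left _ _)).trans (h1.trans (image_mono ?_))
    refine Subset.trans ?_ hsub
    intro x hx
    exact ⟨by linarith [hx.1], hx.2⟩
  · rw [iter_succ_image]
    refine (Ioo_subset_Ioo_left ?_).trans (h2.trans (image_mono ?_))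
    · linarith [min_le_left (β * ε) (1 / 2)]
    · refine Subset.trans ?_ hsub
      intro x hx
      exact ⟨hx.1, by linarith [hx.2]⟩

theorem Good.conn_F (h : Good α β a b) {x y : ℝ} (hc : Conn (Om α β a b) x y)
    (hn : cc α β ∉ uIcc x y) : Conn (Om α β a b) (F α β x) (F α β y) := by
  have hp := h.par
  have hβ := hp.hβ
  have hβ0 : 0 < β := by linarith
  wlog hxy : x ≤ y generalizing x y
  · exact (this hc.symm (by rwa [uIcc_comm]) (not_le.1 hxy).le).symm
  have h1 := hc.Icc_subset hxy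
  rw [uIcc_of_le hxy] at hn
  rcases lt_or_ge y (cc α β) with h2 | h2
  · rw [F_lt h2, F_lt (hxy.trans_lt h2)]
    apply conn_of_Icc
    · unfold FL; nlinarith
    · intro z hz
      unfold FL at hz
      have h3 : x ≤ (z - α) / β := by rw [le_div_iff₀ hβ0]; linarith [hz.1]
      have h4 : (z - α) / β ≤ y := by rw [div_le_iff₀ hβ0]; linarith [hz.2]
      have h5 := h.om_map (h1 ⟨h3, h4⟩) (h4.trans_lt h2).ne
      rw [F_lt (h4.trans_lt h2)] at h5
      have h6 : FL α β ((z - α) / β) = z := by unfold FL; field_simp; ring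
      rwa [h6] at h5
  · have h2' : cc α β < x := by
      by_contra h7
      exact hn ⟨not_lt.1 h7, h2⟩
    rw [F_ge h2, F_ge h2'.le]
    apply conn_of_Icc
    · unfold FR; nlinarith
    · intro z hz
      unfold FR at hz
      have h3 : x ≤ (z + 1 - α) / β := by rw [le_div_iff₀ hβ0]; linarith [hz.1]
      have h4 : (z + 1 - α) / β ≤ y := by rw [div_le_iff₀ hβ0]; linarith [hz.2]
      have h5 := h.om_map (h1 ⟨h3, h4⟩) (h2'.trans_le h3).ne'
      rw [F_ge (h2'.trans_le h3).le] at h5
      have h6 : FR α β ((z + 1 - α) / β) = z := by unfold FR; field_simp; ring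
      rwa [h6] at h5

theorem Good.hit (h : Good α β a b) {t : ℝ} (ht : t ∈ Om α β a b) :
    ∃ n : ℕ, Conn (Om α β a b) ((F α β)^[n] t) (cc α β) := by
  have hp := h.par
  have hβ := hp.hβ
  have hβ0 : 0 < β := by linarith
  by_contra hcon
  have hcon' : ∀ n : ℕ, ¬ Conn (Om α β a b) ((F α β)^[n] t) (cc α β) := fun n hn => hcon ⟨n, hn⟩
  obtain ⟨ε, hε, hsub⟩ := om_nhd ht
  have key : ∀ n : ℕ, Conn (Om α β a b) ((F α β)^[n] t) ((F α β)^[n] t + β ^ n * (ε / 2)) := by
    intro n
    induction n with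
    | zero =>
      apply conn_of_Icc
      · simp; linarith
      · intro z hz
        apply hsub
        simp only [Function.iterate_zero, id_eq, pow_zero, one_mul] at hz
        exact ⟨by linarith [hz.1], by linarith [hz.2]⟩
    | succ n ih =>
      set x := (F α β)^[n] t with hx
      set s := β ^ n * (ε / 2) with hs
      have hs0 : 0 < s := by positivity
      have hnc : cc α β ∉ uIcc x (x + s) := fun hc => hcon' n (ih.symm.of_mem (by rwa [uIcc_comm])).symm
      have h1 := h.conn_F ih hnc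
      rw [uIcc_of_le (by linarith)] at hnc
      have h2 : F α β (x + s) = F α β x + β * s := by
        rcases lt_or_ge x (cc α β) with h3 | h3
        · have h4 : x + s < cc α β := by
            by_contra h5
            exact hnc ⟨h3.le, not_lt.1 h5⟩
          rw [F_lt h3, F_lt h4]
          unfold FL; ring
        · rw [F_ge h3, F_ge (by linarith)]
          unfold FR; ring
      rw [h2] at h1
      have h3 : β ^ (n + 1) * (ε / 2) = β * s := by rw [hs]; ring
      rw [Function.iterate_succ_apply', h3]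
      exact h1
  obtain ⟨n, hn⟩ := pow_unbounded_of_one_lt (1 / (ε / 2)) hβ
  rw [div_lt_iff₀ (by positivity)] at hn
  have h1 := h.om_sub (key n).left_mem
  have h2 := h.om_sub (key n).right_mem
  linarith [h1.1, h2.2]

end

end Q78.LEO
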